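import Mathlib

namespace Pool.Agent.H.MP_4ec1df_co
open Finset

variable {V : Type} [Fintype V] [DecidableEq V]

def sumL : ℕ → (List V → ℝ) → ℝ
  | 0, F => F []
  | n + 1, F => ∑ v, sumL n (fun l => F (v :: l))

omit [DecidableEq V] in
theorem sumL_mono : ∀ (n : ℕ) (F G : List V → ℝ), (∀ l, l.length = n → F l ≤ G l) →
    sumL n F ≤ sumL n G
  | 0, _, _, h => h [] rfl
  | n + 1, _, _, h => sum_le_sum (fun v _ => sumL_mono n _ _ (fun l hl => h _ (by simp [hl])))

omit [DecidableEq V] in
theorem sumL_add : ∀ (n : ℕ) (F G : List V → ℝ),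
    sumL n (fun l => F l + G l) = sumL n F + sumL n G
  | 0, _, _ => rfl
  | n + 1, F, G => by simp only [sumL, sumL_add n, sum_add_distrib]

omit [DecidableEq V] in
theorem sumL_sum {ι : Type} (s : Finset ι) : ∀ (n : ℕ) (F : ι → List V → ℝ),
    sumL n (fun l => ∑ i ∈ s, F i l) = ∑ i ∈ s, sumL n (F i)
  | 0, _ => rfl
  | n + 1, F => by
    simp only [sumL]
    rw [sum_comm]
    exact sum_congr rfl (fun v _ => sumL_sum s n (fun i l => F i (v :: l)))

omit [DecidableEq V] in
theorem sumL_mul (k : ℝ) : ∀ (n : ℕ) (F : List V → ℝ),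
    sumL n (fun l => k * F l) = k * sumL n F
  | 0, _ => rfl
  | n + 1, F => by simp only [sumL, sumL_mul k n, mul_sum]

omit [DecidableEq V] in
theorem sumL_mul' (k : ℝ) (n : ℕ) (F : List V → ℝ) :
    sumL n (fun l => F l * k) = sumL n F * k := by
  simp only [mul_comm _ k, sumL_mul]

theorem mem_bound (w : V) : ∀ (n : ℕ) (F : List V → ℝ), (∀ l, 0 ≤ F l) →
    sumL n (fun l => if w ∈ l then F l else 0) ≤
      ∑ a ∈ range n, sumL a (fun l1 => sumL (n - 1 - a) (fun l2 => F (l1 ++ w :: l2)))
  | 0, _, _ => by simp [sumL]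
  | n + 1, F, hF => by
    rw [sum_range_succ']
    have h1 : ∀ v, sumL n (fun l => if w ∈ v :: l then F (v :: l) else 0) ≤
        sumL n (fun l => if w ∈ l then F (v :: l) else 0) +
          (if v = w then 1 else 0) * sumL n (fun l => F (v :: l)) := by
      intro v
      rw [← sumL_mul, ← sumL_add]
      apply sumL_mono
      intro l _
      have := hF (v :: l)
      by_cases h1 : v = w <;> by_cases h2 : w ∈ l <;> simp [h1, h2, eq_comm (a := w)]
      rwa [h1] at this
    refine (sum_le_sum (fun v _ => h1 v)).trans ?_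
    rw [sum_add_distrib]
    apply add_le_add
    · refine (sum_le_sum (fun v _ => mem_bound w n (fun l => F (v :: l)) (fun l => hF _))).trans ?_
      rw [sum_comm]
      apply le_of_eq
      refine sum_congr rfl (fun a _ => ?_)
      rw [show n + 1 - 1 - (a + 1) = n - 1 - a by omega]
      rfl
    · simp [sumL]

theorem dup_bound : ∀ (n : ℕ) (F : List V → ℝ), (∀ l, 0 ≤ F l) →
    sumL n (fun l => if l.Nodup then 0 else F l) ≤
      ∑ a ∈ range n, ∑ b ∈ range (n - 1 - a), sumL a (fun l1 => ∑ w, sumL b (fun l2 =>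
        sumL (n - 1 - a - 1 - b) (fun l3 => F (l1 ++ w :: (l2 ++ w :: l3)))))
  | 0, _, _ => by simp [sumL]
  | n + 1, F, hF => by
    rw [sum_range_succ']
    have h1 : ∀ v, sumL n (fun l => if (v :: l).Nodup then 0 else F (v :: l)) ≤
        sumL n (fun l => if l.Nodup then 0 else F (v :: l)) +
          sumL n (fun l => if v ∈ l then F (v :: l) else 0) := by
      intro v
      rw [← sumL_add]
      apply sumL_mono
      intro l _
      have := hF (v :: l)
      by_cases h1 : l.Nodup <;> by_cases h2 : v ∈ l <;> simp [h1, h2, this]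
    refine (sum_le_sum (fun v _ => h1 v)).trans ?_
    rw [sum_add_distrib]
    apply add_le_add
    · refine (sum_le_sum (fun v _ => dup_bound n (fun l => F (v :: l)) (fun l => hF _))).trans ?_
      rw [sum_comm]
      apply le_of_eq
      refine sum_congr rfl (fun a _ => ?_)
      rw [show n + 1 - 1 - (a + 1) = n - 1 - a by omega, sum_comm]
      rfl
    · refine (sum_le_sum (fun v _ => mem_bound v n (fun l => F (v :: l)) (fun l => hF _))).trans ?_
      rw [sum_comm]
      apply le_of_eq
      refine sum_congr rfl (fun b _ => ?_)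
      rfl

def wt (S : Matrix V V ℝ) : V → List V → V → ℝ
  | u, [], v => S u v
  | u, x :: l, v => S u x * wt S x l v

omit [Fintype V] [DecidableEq V] in
theorem wt_append (S : Matrix V V ℝ) (x : V) (l2 : List V) (v : V) : ∀ (l1 : List V) (u : V),
    wt S u (l1 ++ x :: l2) v = wt S u l1 x * wt S x l2 v
  | [], _ => rfl
  | y :: l1, u => by simp only [List.cons_append, wt, wt_append S x l2 v l1 y, mul_assoc]

theorem sumL_wt (S : Matrix V V ℝ) (v : V) : ∀ (k : ℕ) (u : V),
    sumL k (fun l => wt S u l v) = (S ^ (k + 1)) u v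
  | 0, _ => by simp [sumL, wt]
  | k + 1, u => by
    simp only [sumL, wt, sumL_mul, sumL_wt S v k]
    rw [pow_succ' S (k + 1), Matrix.mul_apply]

def cw (S : Matrix V V ℝ) : List V → ℝ
  | [] => 0
  | u :: l => wt S u l u

theorem sumL_cw (S : Matrix V V ℝ) (k : ℕ) : sumL (k + 1) (cw S) = ∑ u, (S ^ (k + 1)) u u := by
  simp only [sumL, cw, sumL_wt]

theorem pattern (S : Matrix V V ℝ) (a b c : ℕ) :
    sumL a (fun l1 => ∑ w, sumL b (fun l2 => sumL c (fun l3 =>
      cw S (l1 ++ w :: (l2 ++ w :: l3))))) =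
      ∑ w, (S ^ (b + 1)) w w * (S ^ (c + 1 + a)) w w := by
  rcases a with _ | a
  · simp only [sumL, List.nil_append, cw, wt_append, sumL_mul, sumL_mul', sumL_wt, add_zero]
  · simp only [sumL, List.cons_append, cw, wt_append, sumL_mul, sumL_mul', sumL_wt, sumL_sum]
    rw [sum_comm]
    refine sum_congr rfl (fun w _ => ?_)
    rw [pow_add S (c + 1), Matrix.mul_apply, mul_sum]
    refine sum_congr rfl (fun u _ => by ring)

theorem lc (a : ℕ → ℝ) (N L : ℝ) (a0 : a 0 = 1) (a1 : a 1 = N) (hN : 0 < N) (hL : 0 < L)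
    (h : ∀ k, a (k + 1) ^ 2 ≤ a k * a (k + 2)) (i j : ℕ) (hi : 1 ≤ i) (hj : 1 ≤ j) :
    L * (a i * a j) ≤ a (i + j) + (L * N) ^ (i + j) := by
  have pos2 : ∀ k, 0 < a k ∧ 0 < a (k + 1) := by
    intro k
    induction k with
    | zero => exact ⟨by rw [a0]; norm_num, by rw [zero_add, a1]; exact hN⟩
    | succ k ih =>
      refine ⟨ih.2, ?_⟩
      have := h k
      exact (pos_iff_pos_of_mul_pos (lt_of_lt_of_le (pow_pos ih.2 2) this)).mp ih.1
  have pos : ∀ k, 0 < a k := fun k => (pos2 k).1
  have cross : ∀ p r, a (p + 1) * a (p + r) ≤ a p * a (p + r + 1) := by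
    intro p r
    induction r with
    | zero => rw [add_zero, mul_comm]
    | succ r ih =>
      have h1 := h (p + r)
      apply le_of_mul_le_mul_right _ (pos (p + r))
      have e : p + (r + 1) = p + r + 1 := rfl
      rw [e]
      calc a (p + 1) * a (p + r + 1) * a (p + r) = (a (p + 1) * a (p + r)) * a (p + r + 1) := by ring
        _ ≤ (a p * a (p + r + 1)) * a (p + r + 1) :=
          mul_le_mul_of_nonneg_right ih (pos _).le
        _ = a p * a (p + r + 1) ^ 2 := by ring
        _ ≤ a p * (a (p + r) * a (p + r + 2)) := mul_le_mul_of_nonneg_left h1 (pos _).le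
        _ = _ := by ring
  obtain ⟨j, rfl⟩ := Nat.exists_eq_add_of_le' hj
  have shift : ∀ r, a (r + 1) * a (j + 1) ≤ N * a (r + 1 + j) := by
    intro r
    induction r with
    | zero => rw [zero_add, a1, add_comm 1 j]
    | succ r ih =>
      have h1 := cross (r + 1) j
      apply le_of_mul_le_mul_right _ (pos (r + 1 + j))
      rw [show r + 1 + 1 + j = r + 1 + j + 1 by ring]
      calc a (r + 1 + 1) * a (j + 1) * a (r + 1 + j)
          = (a (r + 1 + 1) * a (r + 1 + j)) * a (j + 1) := by ring
        _ ≤ (a (r + 1) * a (r + 1 + j + 1)) * a (j + 1) :=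
          mul_le_mul_of_nonneg_right h1 (pos _).le
        _ = (a (r + 1) * a (j + 1)) * a (r + 1 + j + 1) := by ring
        _ ≤ (N * a (r + 1 + j)) * a (r + 1 + j + 1) := mul_le_mul_of_nonneg_right ih (pos _).le
        _ = _ := by ring
  obtain ⟨i, rfl⟩ := Nat.exists_eq_add_of_le' hi
  have h1 := mul_le_mul_of_nonneg_left (shift i) hL.le
  rw [show i + 1 + (j + 1) = i + 1 + j + 1 by ring]
  generalize i + 1 + j = q at h1 ⊢
  have hLN := mul_pos hL hN
  by_cases hc : L * N * a q ≤ a (q + 1)
  · have := pow_pos hLN (q + 1)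
    nlinarith
  · push Not at hc
    have h2 : ∀ p, p ≤ q → a p ≤ (L * N) ^ p := by
      intro p
      induction p with
      | zero => intro _; simp [a0]
      | succ p ih =>
        intro hp
        obtain ⟨r, hr⟩ := Nat.exists_eq_add_of_le (by omega : p ≤ q)
        have h3 := cross p r
        rw [← hr] at h3
        have h4 : a (p + 1) ≤ a p * (L * N) := by
          apply le_of_mul_le_mul_right _ (pos q)
          have := pos p
          nlinarith
        rw [pow_succ]
        exact h4.trans (mul_le_mul_of_nonneg_right (ih (by omega)) hLN.le)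
    have h3 := mul_le_mul_of_nonneg_left (h2 q le_rfl) hLN.le
    have := pos (q + 1)
    rw [pow_succ']
    nlinarith

theorem diag_eq (S : Matrix V V ℝ) (hS : ∀ u v, S u v = S v u) (p q : ℕ) (w : V) :
    (S ^ (p + q)) w w = ∑ v, (S ^ p) w v * (S ^ q) w v := by
  have h : S.transpose = S := by ext u v; exact hS v u
  have h2 : ∀ v, (S ^ q) v w = (S ^ q) w v := fun v => by
    rw [← Matrix.transpose_apply (S ^ q) w v, Matrix.transpose_pow, h]
  simp only [pow_add, Matrix.mul_apply, h2]

theorem odd_zero (S : Matrix V V ℝ) (σ : V → Bool) (hσ : ∀ u v, σ u = σ v → S u v = 0) :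
    ∀ (k : ℕ) (u v : V), (σ u = σ v ↔ k % 2 = 1) → (S ^ k) u v = 0 := by
  intro k
  induction k with
  | zero =>
    intro u v h
    have : u ≠ v := fun e => by simp [e] at h
    simp [this]
  | succ k ih =>
    intro u v h
    rw [pow_succ, Matrix.mul_apply]
    apply sum_eq_zero
    intro x _
    by_cases hx : σ x = σ v
    · rw [hσ x v hx, mul_zero]
    · rw [ih u x, zero_mul]
      have : σ u = σ x ↔ ¬ σ u = σ v := by
        revert hx; cases σ u <;> cases σ v <;> cases σ x <;> simp
      rw [this, h]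
      omega

theorem diag_bound (S : Matrix V V ℝ) (hS : ∀ u v, S u v = S v u) (σ : V → Bool)
    (hσ : ∀ u v, σ u = σ v → S u v = 0) (N L : ℝ) (hN : 0 < N) (hL : 0 < L)
    (h2 : ∀ w, ∑ v, S w v * S w v = N) (m i j : ℕ) (hi : 1 ≤ i) (hj : 1 ≤ j) (hij : i + j = 2 * m)
    (w : V) : L * ((S ^ i) w w * (S ^ j) w w) ≤ (S ^ (2 * m)) w w + (L * N) ^ m := by
  rcases Nat.even_or_odd' i with ⟨i, rfl | rfl⟩
  · obtain rfl : m = i + j / 2 := by omega
    have hj' : j = 2 * (j / 2) := by omega
    have := lc (fun k => (S ^ (2 * k)) w w) N L (by simp) (by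
        rw [← h2 w]
        simpa using diag_eq S hS 1 1 w) hN hL (by
        intro k
        rw [show 2 * (k + 1) = k + (k + 2) by ring, two_mul k, two_mul (k + 2), diag_eq S hS,
          diag_eq S hS, diag_eq S hS]
        simpa [sq] using sum_mul_sq_le_sq_mul_sq univ (fun v => (S ^ k) w v)
          (fun v => (S ^ (k + 2)) w v)) i (j / 2) (by omega) (by omega)
    rw [← hj'] at this
    exact this
  · rw [odd_zero S σ hσ (2 * i + 1) w w (by simp), zero_mul, mul_zero, two_mul, diag_eq S hS]
    have := sum_nonneg (s := univ) (fun v _ => mul_self_nonneg ((S ^ m) w v))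
    positivity

end Pool.Agent.H.MP_4ec1df_co
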