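import Mathlib
import Pool.Agent.H.MP_4ec1df_co.A

namespace Pool.Agent.H.MP_4ec1df_co
open Finset

noncomputable def chi {d : ℕ} (t : Fin d → Bool) (g : Fin d → ZMod 2) : ℝ :=
  ∏ k, if t k = true ∧ g k = 1 then -1 else 1

theorem z2 : ∀ x : ZMod 2, x = 0 ∨ x = 1 := by decide

theorem chi_add {d : ℕ} (t : Fin d → Bool) (g h : Fin d → ZMod 2) :
    chi t (g + h) = chi t g * chi t h := by
  unfold chi
  rw [← prod_mul_distrib]
  refine prod_congr rfl (fun k _ => ?_)
  have e : (1 : ZMod 2) + 1 = 0 := by decide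
  rcases z2 (g k) with h1 | h1 <;> rcases z2 (h k) with h2 | h2 <;> cases t k <;>
    simp [h1, h2, e]

theorem chi_sq {d : ℕ} (t : Fin d → Bool) (g : Fin d → ZMod 2) : chi t g * chi t g = 1 := by
  unfold chi
  rw [← prod_mul_distrib]
  refine prod_eq_one (fun k _ => ?_)
  split_ifs <;> norm_num

theorem chi_sum {d : ℕ} (g : Fin d → ZMod 2) :
    ∑ t, chi t g = if g = 0 then (2 : ℝ) ^ d else 0 := by
  unfold chi
  have := Finset.prod_univ_sum (fun _ : Fin d => (univ : Finset Bool))
    (fun k b => if b = true ∧ g k = 1 then (-1 : ℝ) else 1)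
  rw [Fintype.piFinset_univ] at this
  rw [← this]
  split_ifs with h
  · simp [h]
  · obtain ⟨k, hk⟩ := Function.ne_iff.mp h
    apply prod_eq_zero (mem_univ k)
    rcases z2 (g k) with h1 | h1
    · exact absurd h1 hk
    · simp [h1]

variable {V : Type} [Fintype V] [DecidableEq V]

def ok (σ : V → Bool) : V → List V → V → Prop
  | u, [], v => σ u ≠ σ v
  | u, x :: l, v => σ u ≠ σ x ∧ ok σ x l v

def cs {G : Type} [Add G] (c : Sym2 V → G) : V → List V → V → G
  | u, [], v => c s(u, v)
  | u, x :: l, v => c s(u, x) + cs c x l v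

noncomputable def SS {d : ℕ} (σ : V → Bool) (c : Sym2 V → Fin d → ZMod 2) (t : Fin d → Bool) :
    Matrix V V ℝ := fun u v => if σ u = σ v then 0 else chi t (c s(u, v))

omit [Fintype V] [DecidableEq V] in
open Classical in
theorem wt_SS {d : ℕ} (σ : V → Bool) (c : Sym2 V → Fin d → ZMod 2) (t : Fin d → Bool) (v : V) :
    ∀ (l : List V) (u : V), wt (SS σ c t) u l v = if ok σ u l v then chi t (cs c u l v) else 0
  | [], u => by by_cases h : σ u = σ v <;> simp [wt, SS, ok, cs, h]
  | x :: l, u => by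
    rw [wt, wt_SS σ c t v l x]
    by_cases h : σ u = σ x <;> by_cases h2 : ok σ x l v <;> simp [SS, ok, cs, h, h2, chi_add]

theorem powA (σ : V → Bool) (N : ℝ) (hN : ∀ b, ∑ v, (if σ v = b then (1 : ℝ) else 0) = N)
    (A : Matrix V V ℝ) (hA : ∀ u v, A u v = if σ u = σ v then 0 else 1) :
    ∀ (k : ℕ) (u v : V), (A ^ (k + 1)) u v = if (σ u = σ v ↔ k % 2 = 1) then N ^ k else 0 := by
  intro k
  induction k with
  | zero => intro u v; by_cases h : σ u = σ v <;> simp [hA, h]
  | succ k ih =>
    intro u v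
    rw [pow_succ, Matrix.mul_apply]
    have : ∀ x, (A ^ (k + 1)) u x * A x v = (if σ x = !σ v then (1 : ℝ) else 0) *
        (if (σ u = σ v ↔ (k + 1) % 2 = 1) then N ^ k else 0) := by
      intro x
      rw [ih, hA]
      rcases Nat.mod_two_eq_zero_or_one k with h | h
      · have h' : (k + 1) % 2 = 1 := by omega
        cases σ u <;> cases σ v <;> cases σ x <;> simp [h, h']
      · have h' : (k + 1) % 2 = 0 := by omega
        cases σ u <;> cases σ v <;> cases σ x <;> simp [h, h']
    simp only [this]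
    rw [← sum_mul, hN]
    split_ifs <;> ring

theorem upper {d : ℕ} (σ : V → Bool) (N : ℝ) (hpos : 0 < N)
    (hN : ∀ b, ∑ v, (if σ v = b then (1 : ℝ) else 0) = N) (p : ℕ)
    (c : Sym2 V → Fin d → ZMod 2)
    (H : ∀ u l, l.length = 2 * p + 1 → (u :: l).Nodup → ok σ u l u → cs c u l u ≠ 0) :
    N ^ p ≤ 2 ^ d * (2 * (2 * p + 2 : ℝ) ^ 2) ^ (p + 1) := by
  classical
  set L : ℝ := 2 * (2 * p + 2 : ℝ) ^ 2 with hL
  have hL0 : 0 < L := by positivity
  have hsym : ∀ t u v, SS σ c t u v = SS σ c t v u := by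
    intro t u v
    simp only [SS, eq_comm (a := σ u), Sym2.eq_swap (a := u)]
  have hσ : ∀ t u v, σ u = σ v → SS σ c t u v = 0 := fun t u v h => by simp [SS, h]
  have h2 : ∀ t w, ∑ v, SS σ c t w v * SS σ c t w v = N := by
    intro t w
    rw [← hN (!σ w)]
    refine sum_congr rfl (fun v _ => ?_)
    by_cases h : σ w = σ v
    · simp [SS, h]
    · have : σ v = !σ w := by revert h; cases σ w <;> cases σ v <;> simp
      simp only [SS, h, if_false, chi_sq]
      simp [this]
  have hV : ∑ _v : V, (1 : ℝ) = 2 * N := by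
    rw [two_mul]
    nth_rewrite 1 [← hN true]
    rw [← hN false, ← sum_add_distrib]
    refine sum_congr rfl (fun v _ => ?_)
    cases σ v <;> simp
  set F : List V → ℝ := fun l => ∑ t, cw (SS σ c t) l with hF
  have hFv : ∀ u l, F (u :: l) = if ok σ u l u then (if cs c u l u = 0 then 2 ^ d else 0) else 0 := by
    intro u l
    simp only [hF, cw, wt_SS]
    split_ifs with h1 h2
    · rw [chi_sum, if_pos h2]
    · rw [chi_sum, if_neg h2]
    · simp
  have hF0 : ∀ l, 0 ≤ F l := by
    intro l
    rcases l with _ | ⟨u, l⟩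
    · simp [hF, cw]
    · rw [hFv]; split_ifs <;> positivity
  set W : ℝ := ∑ t, ∑ w, (SS σ c t ^ (2 * (p + 1))) w w with hW
  have hW1 : sumL (2 * p + 2) F = W := by
    rw [hF, sumL_sum]
    exact sum_congr rfl (fun t _ => sumL_cw _ (2 * p + 1))
  have hW2 : 2 * N * N ^ (2 * p + 1) ≤ W := by
    have h1 := single_le_sum (s := univ) (f := fun t => ∑ w, (SS σ c t ^ (2 * (p + 1))) w w)
      (fun t _ => sum_nonneg (fun w _ => by
        rw [two_mul, diag_eq _ (hsym t)]
        exact sum_nonneg (fun v _ => mul_self_nonneg _))) (mem_univ (fun _ => false))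
    refine le_trans (le_of_eq ?_) h1
    rw [← hV, sum_mul]
    refine sum_congr rfl (fun w _ => ?_)
    rw [show 2 * (p + 1) = 2 * p + 1 + 1 by ring,
      powA σ N hN _ (fun u v => by simp [SS, chi]) (2 * p + 1) w w, if_pos (by simp), one_mul]
  set R : ℝ := 2 ^ d * (2 * N * (L * N) ^ (p + 1)) with hR
  have hR0 : 0 ≤ R := by positivity
  have hW0 : 0 ≤ W := le_trans (by positivity) hW2
  have h3 : W ≤ ∑ a ∈ range (2 * p + 2), ∑ b ∈ range (2 * p + 2 - 1 - a), (W + R) / L := by
    calc W = sumL (2 * p + 2) F := hW1.symm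
      _ ≤ sumL (2 * p + 2) (fun l => if l.Nodup then 0 else F l) := by
        apply sumL_mono
        intro l hl
        rcases l with _ | ⟨u, l⟩
        · simp at hl
        · split_ifs with h
          · rw [hFv]
            split_ifs with h1 h2
            · exact absurd h2 (H u l (by simpa using hl) h h1)
            · exact le_rfl
            · exact le_rfl
          · exact le_rfl
      _ ≤ _ := dup_bound _ F hF0
      _ ≤ _ := by
        refine sum_le_sum (fun a ha => sum_le_sum (fun b hb => ?_))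
        rw [mem_range] at ha hb
        rw [le_div_iff₀ hL0, mul_comm]
        have e : sumL a (fun l1 => ∑ w, sumL b (fun l2 => sumL (2 * p + 2 - 1 - a - 1 - b)
            (fun l3 => F (l1 ++ w :: (l2 ++ w :: l3))))) =
            ∑ t, ∑ w, (SS σ c t ^ (b + 1)) w w *
              (SS σ c t ^ (2 * p + 2 - 1 - a - 1 - b + 1 + a)) w w := by
          simp only [← pattern, hF]
          rw [← sumL_sum]
          congr 1
          ext l1
          rw [sum_comm]
          simp only [sumL_sum]
        rw [e, mul_sum]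
        have e2 : W + R = ∑ t : Fin d → Bool, ∑ w, ((SS σ c t ^ (2 * (p + 1))) w w +
            (L * N) ^ (p + 1)) := by
          simp only [sum_add_distrib]
          congr 1
          have : ∑ _w : V, (L * N) ^ (p + 1) = 2 * N * (L * N) ^ (p + 1) := by
            rw [← hV, sum_mul, one_mul]
          rw [this, hR]
          simp
        rw [e2]
        refine sum_le_sum (fun t _ => ?_)
        rw [mul_sum]
        refine sum_le_sum (fun w _ => ?_)
        exact diag_bound _ (hsym t) σ (hσ t) N L hpos hL0 (h2 t) (p + 1) _ _ (by omega) (by omega)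
          (by omega) w
  have h4 : W ≤ (W + R) / 2 := by
    refine h3.trans ?_
    have hq : 0 ≤ (W + R) / L := by positivity
    calc _ ≤ ∑ a ∈ range (2 * p + 2), (2 * p + 2 : ℝ) * ((W + R) / L) := by
          refine sum_le_sum (fun a _ => ?_)
          rw [sum_const, card_range, nsmul_eq_mul]
          refine mul_le_mul_of_nonneg_right ?_ hq
          have : 2 * p + 2 - 1 - a ≤ 2 * p + 2 := by omega
          exact_mod_cast this
      _ = _ := by
          rw [sum_const, card_range, nsmul_eq_mul, hL]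
          push_cast
          field_simp
  have h5 : 2 * N * N ^ (2 * p + 1) ≤ R := by linarith
  apply le_of_mul_le_mul_right _ (show 0 < 2 * N * N ^ (p + 1) by positivity)
  calc _ = 2 * N * N ^ (2 * p + 1) := by ring
    _ ≤ R := h5
    _ = _ := by rw [hR]; ring

omit [Fintype V] [DecidableEq V] in
theorem ok_get (σ : V → Bool) (v : V) : ∀ (l : List V) (u : V), ok σ u l v →
    ∀ i < l.length + 1, σ ((u :: l).getD i v) ≠ σ ((u :: l).getD (i + 1) v)
  | [], u, h, i, hi => by
    obtain rfl : i = 0 := by simpa using hi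
    simpa [ok] using h
  | x :: l, u, h, 0, _ => by simpa using h.1
  | x :: l, u, h, i + 1, hi => by
    have := ok_get σ v l x h.2 i (by simpa using hi)
    simpa using this

omit [Fintype V] [DecidableEq V] in
theorem cs_get {G : Type} [AddCommMonoid G] (c : Sym2 V → G) (v : V) : ∀ (l : List V) (u : V),
    cs c u l v = ∑ i ∈ range (l.length + 1), c s((u :: l).getD i v, (u :: l).getD (i + 1) v)
  | [], u => by simp [cs]
  | x :: l, u => by
    rw [cs, cs_get c v l x, List.length_cons, sum_range_succ' _ (l.length + 1), add_comm]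
    simp

theorem upper' {d : ℕ} (σ : V → Bool) (N : ℝ) (hpos : 0 < N)
    (hN : ∀ b, ∑ v, (if σ v = b then (1 : ℝ) else 0) = N) (p : ℕ)
    (c : Sym2 V → Fin d → ZMod 2)
    (hb : 2 ^ d * (2 * (2 * p + 2 : ℝ) ^ 2) ^ (p + 1) < N ^ p) :
    ∃ z : ℕ → V, Set.InjOn z (Set.Iio (2 * (p + 1))) ∧ z (2 * (p + 1)) = z 0 ∧
      (∀ i < 2 * (p + 1), σ (z i) ≠ σ (z (i + 1))) ∧
      ∑ i ∈ range (2 * (p + 1)), c s(z i, z (i + 1)) = 0 := by
  by_contra hc
  refine absurd (upper σ N hpos hN p c (fun u l hl hnd hok h0 => hc ?_)) (not_le.mpr hb)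
  have e : 2 * (p + 1) = l.length + 1 := by omega
  refine ⟨fun i => (u :: l).getD i u, ?_, ?_, ?_, ?_⟩
  · intro i hi j hj hij
    simp only [Set.mem_Iio, e] at hi hj
    simp only at hij
    rw [List.getD_eq_getElem _ _ (by simpa using hi),
      List.getD_eq_getElem _ _ (by simpa using hj)] at hij
    exact (hnd.getElem_inj_iff).mp hij
  · simp [e]
  · rw [e]; exact ok_get σ u l u hok
  · rw [e, ← h0, cs_get]

end Pool.Agent.H.MP_4ec1df_co
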