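import Mathlib

namespace Pool.Agent.H.MP_4ec1df_co
open Finset Polynomial

theorem core {F : Type} [Field F] (h2 : ∀ a : F, a + a = 0) (p k : ℕ) (hk : 2 ≤ k)
    (hkp : k ≤ p + 1) (x y : ℕ → F) (s : ℕ → Bool)
    (alt : ∀ i < 2 * k, s i ≠ s (i + 1))
    (xinj : ∀ i < 2 * k, ∀ j < 2 * k, s i = true → s j = true → x i = x j → i = j)
    (yinj : ∀ i < 2 * k, ∀ j < 2 * k, s i = false → s j = false → y i = y j → i = j)
    (y0 : ∀ i, s i = true → y i = 0)
    (cs : s (2 * k) = s 0) (cx : x (2 * k) = x 0) (cy : y (2 * k) = y 0)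
    (sums : ∀ j < p, ∑ i ∈ range (2 * k), ((if s i = true then x i ^ (j + 1) else 0) * y (i + 1) +
      (if s (i + 1) = true then x (i + 1) ^ (j + 1) else 0) * y i) = 0) : False := by
  classical
  have neg : ∀ a : F, -a = a := fun a => neg_eq_of_add_eq_zero_left (h2 a)
  have h0 : ∀ j ∈ range (p + 1), ∑ i ∈ range (2 * k),
      ((if s i = true then x i ^ j else 0) * y (i + 1) +
      (if s (i + 1) = true then x (i + 1) ^ j else 0) * y i) = 0 := by
    intro j hj
    rcases j with _ | j
    · have := sum_range_sub y (2 * k)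
      rw [cy, sub_self] at this
      refine Eq.trans ?_ this
      refine sum_congr rfl (fun i hi => ?_)
      have ha := alt i (mem_range.mp hi)
      have b1 := y0 i
      have b2 := y0 (i + 1)
      rw [sub_eq_add_neg, neg]
      revert ha b1 b2
      cases s i <;> cases s (i + 1) <;> simp +contextual
    · exact sums j (by simpa using hj)
  have hf : ∀ f : F[X], f.natDegree < p + 1 → ∑ i ∈ range (2 * k),
      ((if s i = true then f.eval (x i) else 0) * y (i + 1) +
      (if s (i + 1) = true then f.eval (x (i + 1)) else 0) * y i) = 0 := by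
    intro f hf
    have : ∑ j ∈ range (p + 1), f.coeff j * ∑ i ∈ range (2 * k),
      ((if s i = true then x i ^ j else 0) * y (i + 1) +
      (if s (i + 1) = true then x (i + 1) ^ j else 0) * y i) = 0 :=
      sum_eq_zero (fun j hj => by rw [h0 j hj, mul_zero])
    refine Eq.trans ?_ this
    simp only [mul_sum]
    rw [sum_comm]
    refine sum_congr rfl (fun i _ => ?_)
    simp only [eval_eq_sum_range' hf]
    split_ifs <;> simp [mul_add, sum_add_distrib, sum_mul, mul_assoc]
  obtain ⟨r, hr, hsr⟩ : ∃ r, r ≤ 1 ∧ s (r + 1) = true := by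
    have := alt 1 (by omega)
    cases h : s 1
    · exact ⟨1, le_rfl, by simpa [h] using this⟩
    · exact ⟨0, by omega, h⟩
  set T := ((range (2 * k)).filter (fun i => s i = true)).erase (r + 1) with hT
  have hTc : T.card < p + 1 := by
    have h1 : ((range (2 * k)).filter (fun i => s i = true)).card ≤ (range k).card := by
      apply card_le_card_of_injOn (fun i => i / 2)
      · intro i hi
        simp only [coe_filter, mem_range, Set.mem_ofPred_eq, coe_range, Set.mem_Iio] at hi ⊢
        omega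
      · intro i hi j hj hij
        simp only [coe_filter, mem_range, Set.mem_ofPred_eq] at hi hj hij
        by_contra hne
        rcases (by omega : j = i + 1 ∨ i = j + 1) with rfl | rfl
        · exact alt i hi.1 (hi.2.trans hj.2.symm)
        · exact alt j hj.1 (hj.2.trans hi.2.symm)
    rw [hT, card_erase_of_mem (by simp [hsr]; omega)]
    rw [card_range] at h1
    omega
  set f : F[X] := ∏ i ∈ T, (X - C (x i)) with hfd
  have hdeg : f.natDegree < p + 1 := by
    rw [hfd, natDegree_prod_of_monic _ _ (fun i _ => monic_X_sub_C _)]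
    simpa using hTc
  set φ : ℕ → F := fun i => if s i = true then f.eval (x i) else 0 with hφ
  have φ0 : ∀ i < 2 * k, i ≠ r + 1 → φ i = 0 := by
    intro i hi hne
    simp only [hφ]
    split_ifs with h
    · rw [hfd, eval_prod]
      exact prod_eq_zero (i := i) (by simp [hT, hne, hi, h]) (by simp)
    · rfl
  have φ1 : φ (r + 1) ≠ 0 := by
    simp only [hφ, hsr, if_true]
    rw [hfd, eval_prod, prod_ne_zero_iff]
    intro i hi
    simp only [hT, mem_erase, mem_filter, mem_range] at hi
    simp only [eval_sub, eval_X, eval_C, sub_ne_zero]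
    exact fun e => hi.1 (xinj _ (by omega) _ hi.2.1 hsr hi.2.2 e).symm
  have φ2 : φ (2 * k) = 0 := by
    rw [← φ0 0 (by omega) (by omega)]
    simp only [hφ, cs, cx]
  have h3 : ∑ i ∈ range (2 * k), (φ i * y (i + 1) + φ (i + 1) * y i) = 0 := hf f hdeg
  rw [sum_add_distrib, sum_eq_single (r + 1), sum_eq_single r, ← mul_add] at h3
  · have h4 := (mul_eq_zero.mp h3).resolve_left φ1
    have h5 : y (r + 1 + 1) = y r := by rw [← neg (y r)]; exact eq_neg_of_add_eq_zero_left h4
    have a1 := alt r (by omega)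
    have a2 := alt (r + 1) (by omega)
    have := yinj _ (by omega) _ (by omega) (by simpa [hsr] using a2) (by simpa [hsr] using a1) h5
    omega
  · intro i hi hne
    rcases (by rw [mem_range] at hi; omega : i + 1 < 2 * k ∨ i + 1 = 2 * k) with h | h
    · rw [φ0 _ h (by omega), zero_mul]
    · rw [h, φ2, zero_mul]
  · intro h; exact absurd (mem_range.mpr (by omega)) h
  · intro i hi hne
    rw [φ0 _ (mem_range.mp hi) hne, zero_mul]
  · intro h; exact absurd (mem_range.mpr (by omega)) h

theorem lower (p d N : ℕ) (hp : 1 ≤ p) (hd : p ≤ d) (hN : N ≤ 2 ^ (d / p)) :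
    ∃ c : Sym2 (Fin N ⊕ Fin N) → Fin d → ZMod 2, ∀ k, 2 ≤ k → k ≤ p + 1 →
      ∀ z : ℕ → Fin N ⊕ Fin N, Set.InjOn z (Set.Iio (2 * k)) → z (2 * k) = z 0 →
      (∀ i < 2 * k, (z i).isLeft ≠ (z (i + 1)).isLeft) →
      ∑ i ∈ range (2 * k), c s(z i, z (i + 1)) ≠ 0 := by
  classical
  have hs : d / p ≠ 0 := (Nat.div_pos hd hp).ne'
  have : Fact (Nat.Prime 2) := ⟨Nat.prime_two⟩
  obtain ⟨Φ, hΦ⟩ : ∃ Φ : (Fin p → GaloisField 2 (d / p)) →ₗ[ZMod 2] (Fin d → ZMod 2),
      Function.Injective Φ := by
    rw [← finrank_le_iff_exists_linearMap]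
    rw [Module.finrank_pi_fintype, Module.finrank_fin_fun]
    simp only [GaloisField.finrank 2 hs, sum_const, card_univ, Fintype.card_fin, smul_eq_mul]
    exact Nat.mul_div_le d p
  obtain ⟨e⟩ : Nonempty (Fin N ↪ GaloisField 2 (d / p)) := by
    have := Fintype.ofFinite (GaloisField 2 (d / p))
    apply Function.Embedding.nonempty_of_card_le
    rw [Fintype.card_fin, ← Nat.card_eq_fintype_card, GaloisField.card 2 _ hs]
    exact hN
  let Xf : Fin N ⊕ Fin N → GaloisField 2 (d / p) := Sum.elim e (fun _ => 0)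
  let Yf : Fin N ⊕ Fin N → GaloisField 2 (d / p) := Sum.elim (fun _ => 0) e
  let c0 : Sym2 (Fin N ⊕ Fin N) → Fin p → GaloisField 2 (d / p) := Sym2.lift ⟨fun u v j =>
    (if u.isLeft = true then Xf u ^ (j.val + 1) else 0) * Yf v +
    (if v.isLeft = true then Xf v ^ (j.val + 1) else 0) * Yf u, fun u v => by
      ext j; exact add_comm _ _⟩
  refine ⟨fun a => Φ (c0 a), fun k hk hkp z hz hc ha h0 => ?_⟩
  rw [← map_sum, ← map_zero Φ] at h0
  have h1 := hΦ h0
  refine core (F := GaloisField 2 (d / p)) (fun a => CharTwo.add_self_eq_zero a) p k hk hkp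
    (fun i => Xf (z i)) (fun i => Yf (z i)) (fun i => (z i).isLeft) ha ?_ ?_ ?_ (by simp [hc])
    (by simp [hc]) (by simp [hc]) ?_
  · intro i hi j hj h1 h2 h3
    apply hz hi hj
    revert h1 h2 h3
    rcases z i with a | a <;> rcases z j with b | b <;> simp [Xf]
  · intro i hi j hj h1 h2 h3
    apply hz hi hj
    revert h1 h2 h3
    rcases z i with a | a <;> rcases z j with b | b <;> simp [Yf]
  · intro i
    rcases z i with a | a <;> simp [Yf]
  · intro j hj
    have := congrFun h1 ⟨j, hj⟩
    rw [Finset.sum_apply] at this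
    exact this

end Pool.Agent.H.MP_4ec1df_co
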